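import Pool.Agent.V11124.SK.Main

open Matrix MeasureTheory Filter Topology Module
open scoped ComplexOrder ENNReal

namespace Pool.Agent.V11159.RS

open Pool.Agent.V11124.SK Pool.Agent.V11124.SK.Stmt

set_option linter.all false

section ip
variable {K : Type*} [RCLike K] {m r p : Type*} [Fintype m] [Fintype r] [Fintype p]

/-- real inner product of matrices -/
noncomputable def ip (X Y : Matrix m r K) : ℝ := RCLike.re (Xᴴ * Y).trace

lemma ip_self (X : Matrix m r K) : ip X X = frob2 X := (frob2_eq X).symm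

lemma ip_comm (X Y : Matrix m r K) : ip X Y = ip Y X := by
  unfold ip
  have : (Yᴴ * X).trace = star ((Xᴴ * Y).trace) := by
    rw [← Matrix.trace_conjTranspose, conjTranspose_mul, conjTranspose_conjTranspose]
  rw [this, RCLike.star_def, RCLike.conj_re]

lemma ip_add (X Y Z : Matrix m r K) : ip X (Y + Z) = ip X Y + ip X Z := by
  unfold ip; rw [Matrix.mul_add, Matrix.trace_add, map_add]

lemma ip_sub (X Y Z : Matrix m r K) : ip X (Y - Z) = ip X Y - ip X Z := by
  unfold ip; rw [Matrix.mul_sub, Matrix.trace_sub, map_sub]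

lemma ip_smul (c : ℝ) (X Y : Matrix m r K) : ip X ((c : K) • Y) = c * ip X Y := by
  unfold ip; rw [Matrix.mul_smul, Matrix.trace_smul, smul_eq_mul, RCLike.re_ofReal_mul]

lemma ip_mul [Fintype p] (A : Matrix m p K) (X : Matrix p r K) (Y : Matrix m r K) :
    ip (A * X) Y = ip X (Aᴴ * Y) := by
  unfold ip; rw [conjTranspose_mul, Matrix.mul_assoc]

lemma frob_add (X Y : Matrix m r K) : frob2 (X + Y) = frob2 X + 2 * ip X Y + frob2 Y := by
  rw [← ip_self, ip_add, ip_comm, ip_add, ip_comm (X + Y) Y, ip_add, ip_self, ip_self,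
    ip_comm Y X]
  ring

lemma frob_smul (c : ℝ) (X : Matrix m r K) : frob2 ((c : K) • X) = c ^ 2 * frob2 X := by
  rw [← ip_self, ip_smul, ip_comm, ip_smul, ip_self]; ring

lemma frob_neg (X : Matrix m r K) : frob2 (-X) = frob2 X := by
  unfold frob2; simp

lemma frob_conj (X : Matrix m r K) : frob2 Xᴴ = frob2 X := by
  unfold frob2
  rw [Finset.sum_comm]
  simp [conjTranspose_apply]

lemma frob_iso [DecidableEq m] [DecidableEq p] {A : Matrix p m K} (hA : Aᴴ * A = 1)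
    (X : Matrix m r K) : frob2 (A * X) = frob2 X := by
  rw [← ip_self, ip_mul, ← Matrix.mul_assoc, hA, Matrix.one_mul, ip_self]

lemma frob_coiso [DecidableEq r] [DecidableEq p] {A : Matrix r p K} (hA : A * Aᴴ = 1)
    (X : Matrix m r K) : frob2 (X * A) = frob2 X := by
  rw [← frob_conj, conjTranspose_mul, frob_iso, frob_conj]
  rw [conjTranspose_conjTranspose, hA]

end ip

section alg
variable {K : Type*} [RCLike K] {n l k q : Type*} [Fintype n] [Fintype l] [Fintype k] [Fintype q]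
  [DecidableEq n] [DecidableEq l] [DecidableEq k] [DecidableEq q]

/-- the square factor -/
noncomputable def Bm (τ : ℝ) (Z : Matrix n q K) : Matrix n n K := 1 + (τ : K) • (Z * Zᴴ)

lemma Bm_posDef {τ : ℝ} (hτ : 0 ≤ τ) (Z : Matrix n q K) : (Bm τ Z).PosDef := by
  unfold Bm
  refine Matrix.PosDef.add_posSemidef Matrix.PosDef.one ?_
  exact (Matrix.posSemidef_self_mul_conjTranspose Z).smul (by exact_mod_cast hτ)

lemma Bm_herm {τ : ℝ} (hτ : 0 ≤ τ) (Z : Matrix n q K) : (Bm τ Z)ᴴ = Bm τ Z :=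
  (Bm_posDef hτ Z).isHermitian

lemma Bm_unit {τ : ℝ} (hτ : 0 ≤ τ) (Z : Matrix n q K) : IsUnit (Bm τ Z).det :=
  (Matrix.isUnit_iff_isUnit_det _).1 (Bm_posDef hτ Z).isUnit

/-- the optimal projection -/
lemma exists_proj {B : Matrix n n K} (hB : Bᴴ = B) (hu : IsUnit B.det) {F : Matrix n k K}
    (hF : Fᴴ * F = 1) : ∃ (Q : Matrix n n K) (X Y' : Matrix n k K), Qᴴ = Q ∧ Q * Q = Q ∧
      Q * B = X * Fᴴ ∧ frob2 (Q * B) = frob2 (B * Y') ∧ Fᴴ * Y' = 1 := by
  set Y := B⁻¹ * F with hY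
  have hBi : (B⁻¹)ᴴ = B⁻¹ := by rw [conjTranspose_nonsing_inv, hB]
  have hYB : Yᴴ * B = Fᴴ := by
    rw [hY, conjTranspose_mul, hBi, Matrix.mul_assoc, Matrix.nonsing_inv_mul _ hu, Matrix.mul_one]
  have hYF : Fᴴ * B⁻¹ = Yᴴ := by rw [hY, conjTranspose_mul, hBi]
  have hinj : Function.Injective Y.mulVec := by
    have h1 : (Fᴴ * B) * Y = 1 := by
      rw [hY, Matrix.mul_assoc, ← Matrix.mul_assoc B, Matrix.mul_nonsing_inv _ hu, Matrix.one_mul,
        hF]
    intro v w h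
    have := congrArg (Matrix.mulVec (Fᴴ * B)) h
    simpa [Matrix.mulVec_mulVec, h1] using this
  have hpd : (Yᴴ * Y).PosDef := Matrix.PosDef.conjTranspose_mul_self Y hinj
  have hud : IsUnit (Yᴴ * Y).det := (Matrix.isUnit_iff_isUnit_det _).1 hpd.isUnit
  set C := (Yᴴ * Y)⁻¹ with hC
  have hCh : Cᴴ = C := by
    rw [hC, conjTranspose_nonsing_inv, conjTranspose_mul, conjTranspose_conjTranspose]
  have hC1 : Yᴴ * Y * C = 1 := Matrix.mul_nonsing_inv _ hud
  have hC2 : C * (Yᴴ * Y) = 1 := Matrix.nonsing_inv_mul _ hud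
  refine ⟨Y * C * Yᴴ, Y * C, B⁻¹ * (Y * C), ?_, ?_, ?_, ?_, ?_⟩
  · rw [conjTranspose_mul (Y * C) Yᴴ, conjTranspose_conjTranspose Y, conjTranspose_mul Y C, hCh]
    exact (Matrix.mul_assoc Y C Yᴴ).symm
  · calc Y * C * Yᴴ * (Y * C * Yᴴ) = Y * (C * (Yᴴ * Y)) * C * Yᴴ := by simp only [Matrix.mul_assoc]
      _ = _ := by rw [hC2, Matrix.mul_one]
  · rw [Matrix.mul_assoc, hYB]
  · rw [Matrix.mul_assoc (Y * C), hYB, ← Matrix.mul_assoc B, Matrix.mul_nonsing_inv _ hu,
      Matrix.one_mul, frob_coiso (A := Fᴴ)]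
    rw [conjTranspose_conjTranspose, hF]
  · rw [← Matrix.mul_assoc, hYF, ← Matrix.mul_assoc, hC1]

lemma quad_bound (A : Matrix l q K) {ε : ℝ} (hε : 0 < ε) (X : Matrix l k K) (z : Matrix q k K) :
    frob2 (A * (M A ε * z)) + ε * frob2 (M A ε * z) ≤ frob2 X + 1 / ε * frob2 (Aᴴ * X + z) := by
  set Mm := M A ε with hM
  have h1 := frob2_nonneg (X + A * (Mm * z))
  rw [frob_add, ip_comm, ip_mul] at h1
  have h2 := frob2_nonneg ((Aᴴ * X + z) + ((-ε : ℝ) : K) • (Mm * z))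
  rw [frob_add, ip_smul, frob_smul, ip_comm, ip_add] at h2
  have h3 : ip (Mm * z) z = frob2 (A * (Mm * z)) + ε * frob2 (Mm * z) := by
    have e : z = Aᴴ * (A * (Mm * z)) + (ε : K) • (Mm * z) := by
      have := S_mul_M A hε
      rw [← hM] at this
      calc z = (S A ε * Mm) * z := by rw [this, Matrix.one_mul]
        _ = _ := by
          unfold S
          simp only [Matrix.add_mul, Matrix.smul_mul, Matrix.one_mul, Matrix.mul_assoc]
    have e' : ip (Mm * z) z = ip (Mm * z) (Aᴴ * (A * (Mm * z)) + (ε : K) • (Mm * z)) :=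
      congrArg (ip (Mm * z)) e
    rw [e', ip_add, ip_smul, ip_self, ← ip_mul, ip_self]
  have h4 : 1 / ε * (frob2 (Aᴴ * X + z) + 2 * (-ε * (ip (Mm * z) (Aᴴ * X) + ip (Mm * z) z)) +
      (-ε) ^ 2 * frob2 (Mm * z)) = 1 / ε * frob2 (Aᴴ * X + z) -
      2 * (ip (Mm * z) (Aᴴ * X) + ip (Mm * z) z) + ε * frob2 (Mm * z) := by
    field_simp
    ring
  have h5 := mul_nonneg (by positivity : (0 : ℝ) ≤ 1 / ε) h2
  rw [h4, h3] at h5
  linarith

lemma gm_bound {U1 : Matrix n l K} {F : Matrix n k K} (h11 : U1ᴴ * U1 = 1) (hF : Fᴴ * F = 1)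
    (h12 : U1ᴴ * F = 0) (hc : U1 * U1ᴴ + F * Fᴴ = 1) {ε : ℝ} (hε : 0 < ε) (Z : Matrix n q K)
    {Y' : Matrix n k K} (hY : Fᴴ * Y' = 1) :
    (Fintype.card k : ℝ) + (frob2 (Fᴴ * Z * (M (U1ᴴ * Z) ε * (U1ᴴ * Z)ᴴ)) +
      ε * frob2 (Fᴴ * Z * M (U1ᴴ * Z) ε)) ≤ frob2 (Bm (1 / (2 * ε)) Z * Y') := by
  set X := U1ᴴ * Y' with hX
  set A := U1ᴴ * Z with hA
  set τ : ℝ := 1 / (2 * ε) with hτ
  have hτ0 : 0 < τ := by positivity
  have hdec : Y' = U1 * X + F := by
    calc Y' = (U1 * U1ᴴ + F * Fᴴ) * Y' := by rw [hc, Matrix.one_mul]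
      _ = _ := by rw [Matrix.add_mul, Matrix.mul_assoc, Matrix.mul_assoc, hY, Matrix.mul_one]
  have hn : frob2 Y' = frob2 X + Fintype.card k := by
    rw [hdec, frob_add, frob_iso h11, ip_mul, h12]
    have e1 : ip X (0 : Matrix l k K) = 0 := by unfold ip; simp
    have e2 : frob2 F = Fintype.card k := by
      rw [frob2_eq, hF]; simp
    rw [e1, e2]; ring
  have hw : Zᴴ * Y' = Aᴴ * X + Zᴴ * F := by
    conv_lhs => rw [hdec]
    rw [Matrix.mul_add, hA, conjTranspose_mul, conjTranspose_conjTranspose, ← Matrix.mul_assoc]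
  have hb : frob2 (Bm τ Z * Y') = frob2 Y' + 2 * τ * frob2 (Zᴴ * Y') +
      τ ^ 2 * frob2 (Z * (Zᴴ * Y')) := by
    unfold Bm
    rw [Matrix.add_mul, Matrix.one_mul, Matrix.smul_mul, Matrix.mul_assoc, frob_add, ip_smul,
      frob_smul, ip_comm, ip_mul, ip_self]
    ring
  have h6 := quad_bound A hε X (Zᴴ * F)
  have h7 : frob2 (Fᴴ * Z * (M A ε * Aᴴ)) = frob2 (A * (M A ε * (Zᴴ * F))) := by
    rw [← frob_conj]
    simp only [conjTranspose_mul, conjTranspose_conjTranspose, M_herm A hε, Matrix.mul_assoc]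
  have h8 : frob2 (Fᴴ * Z * M A ε) = frob2 (M A ε * (Zᴴ * F)) := by
    rw [← frob_conj]
    simp only [conjTranspose_mul, conjTranspose_conjTranspose, M_herm A hε, Matrix.mul_assoc]
  have h9 : 2 * τ = 1 / ε := by rw [hτ]; field_simp
  have h10 : 0 ≤ τ ^ 2 * frob2 (Z * (Zᴴ * Y')) := mul_nonneg (by positivity) (frob2_nonneg _)
  rw [h7, h8, hb, hn, h9, hw]
  rw [hw] at h10
  linarith

end alg

section frame
variable {K : Type*} [RCLike K]

lemma exists_frame {l k : ℕ} (Om : Matrix (Fin (l + k)) (Fin l) K) :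
    ∃ (U1 : Matrix (Fin (l + k)) (Fin l) K) (U2 : Matrix (Fin (l + k)) (Fin k) K),
      U1ᴴ * U1 = 1 ∧ U2ᴴ * U2 = 1 ∧ U1ᴴ * U2 = 0 ∧ U1 * U1ᴴ + U2 * U2ᴴ = 1 ∧ U2ᴴ * Om = 0 := by
  classical
  let f : Fin (l + k) → EuclideanSpace K (Fin (l + k)) :=
    Fin.addCases (fun i => (WithLp.toLp 2 (fun a => Om a i) : EuclideanSpace K (Fin (l + k)))) (fun _ => (0 : EuclideanSpace K (Fin (l + k))))
  have hfin : finrank K (EuclideanSpace K (Fin (l + k))) = Fintype.card (Fin (l + k)) := by simp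
  let b := InnerProductSpace.gramSchmidtOrthonormalBasis hfin f
  let U : Matrix (Fin (l + k)) (Fin (l + k)) K := Matrix.of fun a j => b j a
  have hU : Uᴴ * U = 1 := by
    ext i j
    have h := (orthonormal_iff_ite.1 b.orthonormal) i j
    rw [EuclideanSpace.inner_eq_star_dotProduct] at h
    rw [Matrix.mul_apply, Matrix.one_apply, ← h]
    simp only [dotProduct]
    refine Finset.sum_congr rfl fun a _ => ?_
    simp [Matrix.conjTranspose_apply, U, mul_comm]
  have hU' : U * Uᴴ = 1 := mul_eq_one_comm.1 hU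
  refine ⟨U.submatrix id (Fin.castAdd k), U.submatrix id (Fin.natAdd l), ?_, ?_, ?_, ?_, ?_⟩
  · ext i j
    have := congrFun (congrFun hU (Fin.castAdd k i)) (Fin.castAdd k j)
    rw [Matrix.mul_apply] at this
    rw [Matrix.mul_apply]
    refine Eq.trans ?_ (this.trans ?_)
    · rfl
    · simp [Matrix.one_apply]
  · ext i j
    have := congrFun (congrFun hU (Fin.natAdd l i)) (Fin.natAdd l j)
    rw [Matrix.mul_apply] at this
    rw [Matrix.mul_apply]
    refine Eq.trans ?_ (this.trans ?_)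
    · rfl
    · simp [Matrix.one_apply]
  · ext i j
    have := congrFun (congrFun hU (Fin.castAdd k i)) (Fin.natAdd l j)
    rw [Matrix.mul_apply] at this
    rw [Matrix.mul_apply]
    refine Eq.trans ?_ (this.trans ?_)
    · rfl
    · rw [Matrix.one_apply_ne, Matrix.zero_apply]
      intro h
      have := congrArg Fin.val h
      simp at this
      omega
  · ext i j
    have := congrFun (congrFun hU' i) j
    rw [Matrix.mul_apply, Fin.sum_univ_add] at this
    rw [Matrix.add_apply, Matrix.mul_apply, Matrix.mul_apply]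
    exact this
  · ext j i
    have h := InnerProductSpace.gramSchmidtOrthonormalBasis_inv_triangular hfin f
      (i := Fin.castAdd k i) (j := Fin.natAdd l j) (by
        rw [Fin.lt_def]; simp; omega)
    have h2 : f (Fin.castAdd k i) = (WithLp.toLp 2 (fun a => Om a i) : EuclideanSpace K (Fin (l + k))) := by simp [f]
    rw [h2, EuclideanSpace.inner_eq_star_dotProduct] at h
    rw [Matrix.mul_apply, Matrix.zero_apply]
    rw [← h]
    simp only [dotProduct]
    refine Finset.sum_congr rfl fun a _ => ?_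
    simp [Matrix.conjTranspose_apply, b, U, mul_comm]

end frame

end Pool.Agent.V11159.RS
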