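import Pool.Agent.V11124.SK.Defs

/-! Algorithms that see a random embedding `Ω` and the sketches `A Ω`, `A^* A Ω`. -/

open Matrix MeasureTheory
open scoped ENNReal

namespace Pool.Agent.V11159.RS.Stmt

open Pool.Agent.V11124.SK.Stmt (frobSq)

variable {K : Type*} [RCLike K] {n l d : ℕ} {S : Type*} [MeasurableSpace S]

/-- `‖A - [A]_q‖_F^2`, the smallest squared Frobenius distance from `A` to a matrix of rank at
most `q`. -/
noncomputable def bestErr (q : ℕ) (A : Matrix (Fin d) (Fin n) K) : ℝ≥0∞ :=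
  ⨅ (X : Matrix (Fin d) (Fin n) K) (_ : X.rank ≤ q), ENNReal.ofReal (frobSq (A - X))

/-- `ρ_q(A) = E ‖A - ALG(Ω, A Ω, A^* A Ω)‖_F^2 / ‖A - [A]_q‖_F^2`; the expectation is over the
probability measure `P` on `S` on which the random matrix `Ω` is defined. -/
noncomputable def ratio (P : Measure S) (Ω : S → Matrix (Fin n) (Fin l) K)
    (alg : Matrix (Fin n) (Fin l) K × Matrix (Fin d) (Fin l) K × Matrix (Fin n) (Fin l) K →
      Matrix (Fin d) (Fin n) K) (q : ℕ) (A : Matrix (Fin d) (Fin n) K) : ℝ≥0∞ :=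
  (∫⁻ s, ENNReal.ofReal (frobSq (A - alg (Ω s, A * Ω s, Aᴴ * A * Ω s))) ∂P) / bestErr q A

/-- The supremum of `ρ_q(A)` over all `A` of rank `r`. -/
noncomputable def worst (P : Measure S) (Ω : S → Matrix (Fin n) (Fin l) K)
    (alg : Matrix (Fin n) (Fin l) K × Matrix (Fin d) (Fin l) K × Matrix (Fin n) (Fin l) K →
      Matrix (Fin d) (Fin n) K) (q r : ℕ) : ℝ≥0∞ :=
  ⨆ (A : Matrix (Fin d) (Fin n) K) (_ : A.rank = r), ratio P Ω alg q A

end Pool.Agent.V11159.RS.Stmt
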