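import Pool.Agent.V11159.RS.Alg

open Matrix MeasureTheory Filter Topology Module
open scoped ComplexOrder ENNReal

namespace Pool.Agent.V11159.RS

open Pool.Agent.V11124.SK Pool.Agent.V11124.SK.Stmt

set_option linter.all false

section gs
variable {K : Type*} [RCLike K] [MeasurableSpace K] [BorelSpace K]

lemma second_right {κ q ρ : Type*} [Fintype κ] [Fintype q] [Fintype ρ] [DecidableEq κ]
    (X : Matrix q ρ K) :
    ∫⁻ w, ENNReal.ofReal (frob2 (toM w * X)) ∂(G K (κ × q)) =
      ENNReal.ofReal (finrank ℝ K * (Fintype.card κ * frob2 X)) := by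
  have h1 : ∀ w : κ × q → K, ENNReal.ofReal (frob2 (toM w * X)) =
      ∑ i, ∑ j, ENNReal.ofReal (‖∑ p : κ × q, (if p.1 = i then X p.2 j else 0) * w p‖ ^ 2) := by
    intro w
    unfold frob2
    rw [ENNReal.ofReal_sum_of_nonneg (fun _ _ => Finset.sum_nonneg fun _ _ => sq_nonneg _)]
    refine Finset.sum_congr rfl fun i _ => ?_
    rw [ENNReal.ofReal_sum_of_nonneg (fun _ _ => sq_nonneg _)]
    refine Finset.sum_congr rfl fun j _ => ?_
    congr 3
    rw [Fintype.sum_prod_type, Finset.sum_eq_single i]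
    · simp [Matrix.mul_apply, toM, mul_comm]
    · intro b _ hb; simp [hb]
    · simp
  have mm : ∀ i j, Measurable (fun w : κ × q → K =>
      ENNReal.ofReal (‖∑ p : κ × q, (if p.1 = i then X p.2 j else 0) * w p‖ ^ 2)) := by
    intro i j; fun_prop
  simp_rw [h1]
  rw [lintegral_finsetSum _ (fun i _ => Finset.measurable_sum _ fun j _ => mm i j)]
  have h3 : ∀ i : κ, ∫⁻ w : κ × q → K, ∑ j, ENNReal.ofReal (‖∑ p : κ × q,
      (if p.1 = i then X p.2 j else 0) * w p‖ ^ 2) ∂(G K (κ × q)) =
      ∑ j, ENNReal.ofReal (finrank ℝ K *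
        ∑ p : κ × q, ‖(if p.1 = i then X p.2 j else 0 : K)‖ ^ 2) := by
    intro i
    rw [lintegral_finsetSum _ (fun j _ => mm i j)]
    exact Finset.sum_congr rfl fun j _ =>
      G_second (fun p : κ × q => (if p.1 = i then X p.2 j else 0 : K))
  rw [Finset.sum_congr rfl fun i _ => h3 i]
  have h2 : ∀ (i : κ) (j : ρ), (∑ p : κ × q, ‖(if p.1 = i then X p.2 j else 0 : K)‖ ^ 2) =
      ∑ a, ‖X a j‖ ^ 2 := by
    intro i j
    rw [Fintype.sum_prod_type, Finset.sum_eq_single i]
    · simp
    · intro b _ hb; simp [hb]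
    · simp
  simp_rw [h2]
  rw [Finset.sum_const, Finset.card_univ, nsmul_eq_mul,
    ← ENNReal.ofReal_sum_of_nonneg (fun _ _ => by positivity), ← ENNReal.ofReal_natCast,
    ← ENNReal.ofReal_mul (by positivity)]
  congr 1
  rw [← Finset.mul_sum]
  unfold frob2
  rw [Finset.sum_comm]
  ring

/-- the change of coordinates -/
noncomputable def Rt {n l k q : Type} [Fintype n] [Fintype l] [Fintype k] [Fintype q]
    (U1 : Matrix n l K) (U2 : Matrix n k K) :
    ((l × q → K) × (k × q → K)) →ₗ[ℝ] (n × q → K) where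
  toFun p := ofM (U1 * toM p.1 + U2 * toM p.2)
  map_add' p s := by
    have e1 : toM (p + s).1 = toM p.1 + toM s.1 := rfl
    have e2 : toM (p + s).2 = toM p.2 + toM s.2 := rfl
    rw [e1, e2, Matrix.mul_add, Matrix.mul_add]
    funext x
    simp only [ofM, Matrix.add_apply, Pi.add_apply]
    ring
  map_smul' c p := by
    have e1 : toM (c • p).1 = c • toM p.1 := rfl
    have e2 : toM (c • p).2 = c • toM p.2 := rfl
    rw [e1, e2, Matrix.mul_smul, Matrix.mul_smul]
    funext x
    simp only [ofM, Matrix.add_apply, Matrix.smul_apply, Pi.smul_apply,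
      RingHom.id_apply, smul_add]

lemma frob_toM {m r : Type*} [Fintype m] [Fintype r] (w : m × r → K) :
    frob2 (toM w) = ∑ x, ‖w x‖ ^ 2 := by
  unfold frob2
  rw [Fintype.sum_prod_type]
  rfl

lemma Rt_mp {n l k q : Type} [Fintype n] [Fintype l] [Fintype k] [Fintype q]
    [DecidableEq n] [DecidableEq l] [DecidableEq k] [DecidableEq q]
    {U1 : Matrix n l K} {U2 : Matrix n k K} (h11 : U1ᴴ * U1 = 1) (h22 : U2ᴴ * U2 = 1)
    (h12 : U1ᴴ * U2 = 0) (hcard : Fintype.card n = Fintype.card l + Fintype.card k) :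
    MeasurePreserving (Rt (q := q) U1 U2) ((G K (l × q)).prod (G K (k × q))) (G K (n × q)) := by
  have h1 := (GS.base (K := K) (l × q)).prod (GS.base (K := K) (k × q))
  have h2 := GS.base (K := K) (n × q)
  refine GS.isom h1 h2 (Rt U1 U2) (fun p => ?_) ?_
  · have e : ∑ x, ‖(Rt U1 U2 p) x‖ ^ 2 = frob2 (U1 * toM p.1 + U2 * toM p.2) := by
      rw [← frob_toM]; rfl
    rw [e, frob_add, frob_iso h11, frob_iso h22, ip_mul, ← Matrix.mul_assoc, h12, Matrix.zero_mul,
      frob_toM, frob_toM]
    have : ip (toM p.1) (0 : Matrix l q K) = 0 := by unfold ip; simp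
    rw [this]; ring
  · simp only [Module.finrank_prod, Module.finrank_pi_fintype, Finset.sum_const, Finset.card_univ,
      smul_eq_mul, Fintype.card_prod, hcard]
    ring

/-- the pointwise bound -/
noncomputable def fb {l k q : Type} [Fintype l] [Fintype k] [Fintype q] [DecidableEq q]
    (ε : ℝ) (A : Matrix l q K) (z : Matrix k q K) : ℝ :=
  (Fintype.card k : ℝ) + (frob2 (z * (M A ε * Aᴴ)) + ε * frob2 (z * M A ε))

lemma cont_frob {X : Type*} [TopologicalSpace X] {m r : Type*} [Fintype m] [Fintype r]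
    {f : X → Matrix m r K} (hf : Continuous f) : Continuous fun x => frob2 (f x) := by
  unfold frob2
  refine continuous_finsetSum _ fun i _ => continuous_finsetSum _ fun j _ => ?_
  exact (hf.matrix_elem i j).norm.pow 2

lemma cont_fb {X : Type*} [TopologicalSpace X] {l k q : Type} [Fintype l] [Fintype k] [Fintype q]
    [DecidableEq q] {ε : ℝ} (hε : 0 < ε) {A : X → Matrix l q K} {z : X → Matrix k q K}
    (hA : Continuous A) (hz : Continuous z) : Continuous fun x => fb ε (A x) (z x) := by
  have hM : Continuous fun x => M (A x) ε := (continuous_M hε).comp hA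
  unfold fb
  exact continuous_const.add ((cont_frob (hz.matrix_mul (hM.matrix_mul hA.matrix_conjTranspose))).add
    (continuous_const.mul (cont_frob (hz.matrix_mul hM))))

lemma gauss_int {n l k q : Type} [Fintype n] [Fintype l] [Fintype k] [Fintype q]
    [DecidableEq n] [DecidableEq l] [DecidableEq k] [DecidableEq q]
    {U1 : Matrix n l K} {U2 : Matrix n k K} (h11 : U1ᴴ * U1 = 1) (h22 : U2ᴴ * U2 = 1)
    (h12 : U1ᴴ * U2 = 0) (hcard : Fintype.card n = Fintype.card l + Fintype.card k)
    {ε : ℝ} (hε : 0 < ε) :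
    ∫⁻ w : n × q → K, ENNReal.ofReal (fb ε (U1ᴴ * toM w) (U2ᴴ * toM w)) ∂(G K (n × q)) =
      ENNReal.ofReal ((Fintype.card k : ℝ) + finrank ℝ K * Fintype.card k * T K l q ε) := by
  have m0 : Measurable (fun w : n × q → K =>
      ENNReal.ofReal (fb ε (U1ᴴ * toM w) (U2ᴴ * toM w))) :=
    ENNReal.measurable_ofReal.comp (cont_fb hε (continuous_const.matrix_mul continuous_toM)
      (continuous_const.matrix_mul continuous_toM)).measurable
  rw [← (Rt_mp (q := q) h11 h22 h12 hcard).lintegral_comp m0]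
  have h21 : U2ᴴ * U1 = 0 := by
    have := congrArg conjTranspose h12
    simpa [conjTranspose_mul] using this
  have e1 : ∀ p : (l × q → K) × (k × q → K), U1ᴴ * toM (Rt U1 U2 p) = toM p.1 := by
    intro p
    have : toM (Rt U1 U2 p) = U1 * toM p.1 + U2 * toM p.2 := rfl
    rw [this, Matrix.mul_add, ← Matrix.mul_assoc, ← Matrix.mul_assoc, h11, h12, Matrix.one_mul,
      Matrix.zero_mul, add_zero]
  have e2 : ∀ p : (l × q → K) × (k × q → K), U2ᴴ * toM (Rt U1 U2 p) = toM p.2 := by
    intro p
    have : toM (Rt U1 U2 p) = U1 * toM p.1 + U2 * toM p.2 := rfl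
    rw [this, Matrix.mul_add, ← Matrix.mul_assoc, ← Matrix.mul_assoc, h21, h22, Matrix.one_mul,
      Matrix.zero_mul, zero_add]
  have e4 : ∀ p : (l × q → K) × (k × q → K),
      ENNReal.ofReal (fb ε (U1ᴴ * toM (Rt U1 U2 p)) (U2ᴴ * toM (Rt U1 U2 p))) =
      ENNReal.ofReal (fb ε (toM p.1) (toM p.2)) := by
    intro p; rw [e1, e2]
  rw [lintegral_congr e4]
  have m1 : Measurable (fun p : (l × q → K) × (k × q → K) =>
      ENNReal.ofReal (fb ε (toM p.1) (toM p.2))) :=
    ENNReal.measurable_ofReal.comp (cont_fb hε (continuous_toM.comp continuous_fst)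
      (continuous_toM.comp continuous_snd)).measurable
  rw [lintegral_prod _ m1.aemeasurable, ← lint_lin hε (by positivity) (by positivity)]
  refine lintegral_congr fun a => ?_
  set A := toM a with hA
  have e3 : ∀ w : k × q → K, ENNReal.ofReal (fb ε A (toM w)) =
      ENNReal.ofReal (Fintype.card k : ℝ) + (ENNReal.ofReal (frob2 (toM w * (M A ε * Aᴴ))) +
        ENNReal.ofReal ε * ENNReal.ofReal (frob2 (toM w * M A ε))) := by
    intro w
    unfold fb
    rw [ENNReal.ofReal_add (by positivity) (add_nonneg (frob2_nonneg _) (mul_nonneg hε.le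
      (frob2_nonneg _))), ENNReal.ofReal_add (frob2_nonneg _) (mul_nonneg hε.le (frob2_nonneg _)),
      ENNReal.ofReal_mul hε.le]
  have c1 : Measurable (fun w : k × q → K => ENNReal.ofReal (frob2 (toM w * (M A ε * Aᴴ)))) :=
    ENNReal.measurable_ofReal.comp
      (cont_frob (continuous_toM.matrix_mul continuous_const)).measurable
  have c2 : Measurable (fun w : k × q → K => ENNReal.ofReal (frob2 (toM w * M A ε))) :=
    ENNReal.measurable_ofReal.comp
      (cont_frob (continuous_toM.matrix_mul continuous_const)).measurable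
  show ∫⁻ w : k × q → K, ENNReal.ofReal (fb ε A (toM w)) ∂(G K (k × q)) = _
  rw [lintegral_congr e3]
  rw [lintegral_add_left measurable_const, lintegral_add_left c1, lintegral_const_mul _ c2,
    second_right, second_right, lintegral_const, measure_univ, mul_one]
  have t0 := tr_nonneg A hε
  have f1 := frob2_nonneg (M A ε)
  have f2 := frob2_nonneg (M A ε * Aᴴ)
  have hfa : frob2 (M A ε * Aᴴ) = tr A ε - ε * frob2 (M A ε) := by
    rw [← frobAM A hε, ← frob_conj, conjTranspose_mul, conjTranspose_conjTranspose, M_herm A hε]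
  rw [← ENNReal.ofReal_mul hε.le, ← ENNReal.ofReal_add (by positivity) (by positivity),
    ← ENNReal.ofReal_add (by positivity) (by positivity)]
  congr 1
  rw [hfa]
  ring

end gs

end Pool.Agent.V11159.RS
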