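import Pool.Agent.V11124.SK.Main

open Matrix MeasureTheory Filter Topology Module
open scoped ComplexOrder ENNReal

namespace Pool.Agent.V11159.RS

open Pool.Agent.V11124.SK Pool.Agent.V11124.SK.Stmt

set_option linter.all false

section Haar

variable (K : Type*) [RCLike K] (n : Type) [Fintype n] [DecidableEq n]

/-- the unitary group is compact -/
lemma compactU : CompactSpace (Matrix.unitaryGroup n K) := by
  refine isCompact_iff_compactSpace.mp (?_ : IsCompact
    ((Matrix.unitaryGroup n K : Submonoid (Matrix n n K)) : Set (Matrix n n K)))
  have hK : IsCompact (Set.pi Set.univ fun _ : n => Set.pi Set.univ fun _ : n =>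
      Metric.closedBall (0 : K) 1 : Set (n → n → K)) :=
    isCompact_univ_pi fun _ => isCompact_univ_pi fun _ => isCompact_closedBall _ _
  refine IsCompact.of_isClosed_subset (s := (Set.pi Set.univ fun _ : n => Set.pi Set.univ fun _ : n =>
      Metric.closedBall (0 : K) 1 : Set (Matrix n n K))) hK ?_ ?_
  · have : ((Matrix.unitaryGroup n K : Submonoid (Matrix n n K)) : Set (Matrix n n K)) =
        {V | V * star V = 1} := by
      ext V
      exact Matrix.mem_unitaryGroup_iff
    rw [this]
    exact isClosed_eq (by fun_prop) continuous_const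
  · intro V hV i _ j _
    simpa using entry_norm_bound_of_unitary hV i j

/-- a left invariant probability measure on the unitary group -/
lemma exists_haar : ∃ (_ : MeasurableSpace (Matrix.unitaryGroup n K))
    (μ : Measure (Matrix.unitaryGroup n K)), IsProbabilityMeasure μ ∧
    (∀ f : Matrix.unitaryGroup n K → ℝ≥0∞, ∀ U : Matrix.unitaryGroup n K,
      ∫⁻ V, f (U * V) ∂μ = ∫⁻ V, f V ∂μ) ∧
    (∀ i j, ∀ [MeasurableSpace K] [BorelSpace K],
      Measurable fun V : Matrix.unitaryGroup n K => (V : Matrix n n K) i j) := by
  letI : MeasurableSpace (Matrix.unitaryGroup n K) := borel _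
  haveI : BorelSpace (Matrix.unitaryGroup n K) := ⟨rfl⟩
  haveI := compactU K n
  refine ⟨inferInstance, Measure.haarMeasure ⊤, ?_, ?_, ?_⟩
  · constructor
    have := Measure.haarMeasure_self (K₀ := (⊤ : TopologicalSpace.PositiveCompacts
      (Matrix.unitaryGroup n K)))
    simpa using this
  · intro f U
    exact lintegral_mul_left_eq_self f U
  · intro i j _ _
    have : Continuous fun V : Matrix.unitaryGroup n K => (V : Matrix n n K) i j :=
      (continuous_apply j).comp ((continuous_apply i).comp continuous_subtype_val)
    exact this.measurable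

end Haar

end Pool.Agent.V11159.RS
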