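import Pool.Agent.V11159.RS.Gs
import Pool.Agent.V11159.RS.Haar
import Pool.Agent.V11159.RS.Defs

open Matrix MeasureTheory Filter Topology Module
open scoped ComplexOrder ENNReal RealInnerProductSpace

namespace Pool.Agent.V11159.RS

open Pool.Agent.V11124.SK Pool.Agent.V11159.RS.Stmt
open Pool.Agent.V11124.SK.Stmt (frobSq)

set_option linter.all false

section inst
variable {K : Type*} [RCLike K] {N d m q l k : ℕ}

/-- the hard instance -/
noncomputable def AA (hrd : m ≤ d) (hrn : m ≤ N) (τ : ℝ) (W : Matrix (Fin m) (Fin m) K)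
    (Z : Matrix (Fin m) (Fin q) K) : Matrix (Fin d) (Fin N) K :=
  (Jm K hrd)ᴴ * (Wᴴ * Bm τ Z) * Jm K hrn

lemma JJ (hrd : m ≤ d) : ((Jm K hrd)ᴴ)ᴴ * (Jm K hrd)ᴴ = 1 := by
  rw [conjTranspose_conjTranspose, Jm_mul]

lemma frob_sand (hrd : m ≤ d) (hrn : m ≤ N) {W : Matrix (Fin m) (Fin m) K} (hW : W * Wᴴ = 1)
    (X : Matrix (Fin m) (Fin m) K) :
    frob2 ((Jm K hrd)ᴴ * (Wᴴ * X) * Jm K hrn) = frob2 X := by
  rw [frob_coiso (Jm_mul hrn), frob_iso (JJ hrd), frob_iso]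
  rw [conjTranspose_conjTranspose, hW]

lemma AA_gram (hrd : m ≤ d) (hrn : m ≤ N) {τ : ℝ} (hτ : 0 ≤ τ) {W : Matrix (Fin m) (Fin m) K}
    (hW : W * Wᴴ = 1) (Z : Matrix (Fin m) (Fin q) K) :
    (AA hrd hrn τ W Z)ᴴ * AA hrd hrn τ W Z =
      (Jm K hrn)ᴴ * (Bm τ Z * Bm τ Z) * Jm K hrn := by
  unfold AA
  simp only [conjTranspose_mul, conjTranspose_conjTranspose, Bm_herm hτ]
  calc _ = (Jm K hrn)ᴴ * (Bm τ Z * (W * ((Jm K hrd * (Jm K hrd)ᴴ) * Wᴴ)) * Bm τ Z) *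
        Jm K hrn := by simp only [Matrix.mul_assoc]
    _ = _ := by rw [Jm_mul, Matrix.one_mul, hW, Matrix.mul_one]

lemma AA_rank (hrd : m ≤ d) (hrn : m ≤ N) {τ : ℝ} (hτ : 0 ≤ τ) {W : Matrix (Fin m) (Fin m) K}
    (hW : W * Wᴴ = 1) (Z : Matrix (Fin m) (Fin q) K) : (AA hrd hrn τ W Z).rank = m := by
  have hu : IsUnit (Wᴴ * Bm τ Z).det := by
    rw [det_mul]
    refine IsUnit.mul ?_ (Bm_unit hτ Z)
    have := congrArg det hW
    rw [det_mul, det_one] at this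
    exact IsUnit.of_mul_eq_one (det W) (by rw [mul_comm]; exact this)
  have h1 : (Wᴴ * Bm τ Z).rank = m := by
    have := Matrix.rank_of_isUnit _ ((Matrix.isUnit_iff_isUnit_det _).2 hu)
    simpa using this
  have h2 : (AA hrd hrn τ W Z).rank ≤ (Wᴴ * Bm τ Z).rank := by
    unfold AA
    exact (Matrix.rank_mul_le_left _ _).trans (Matrix.rank_mul_le_right _ _)
  have h3 : (Wᴴ * Bm τ Z).rank ≤ (AA hrd hrn τ W Z).rank := by
    have e : Wᴴ * Bm τ Z = Jm K hrd * (AA hrd hrn τ W Z) * (Jm K hrn)ᴴ := by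
      unfold AA
      calc Wᴴ * Bm τ Z = (Jm K hrd * (Jm K hrd)ᴴ) * (Wᴴ * Bm τ Z) *
            (Jm K hrn * (Jm K hrn)ᴴ) := by rw [Jm_mul, Jm_mul, Matrix.one_mul, Matrix.mul_one]
        _ = _ := by simp only [Matrix.mul_assoc]
    conv_lhs => rw [e]
    exact (Matrix.rank_mul_le_left _ _).trans (Matrix.rank_mul_le_right _ _)
  omega

lemma AA_best (hrd : m ≤ d) (hrn : m ≤ N) {τ : ℝ} {W : Matrix (Fin m) (Fin m) K}
    (hW : W * Wᴴ = 1) {Z : Matrix (Fin m) (Fin q) K} (hZ : IsUnit (Zᴴ * Z).det) :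
    bestErr q (AA hrd hrn τ W Z) ≤ ENNReal.ofReal ((m : ℝ) - q) := by
  set X : Matrix (Fin d) (Fin N) K := (Jm K hrd)ᴴ * (Wᴴ * (Z * ((Zᴴ * Z)⁻¹ * Zᴴ +
    (τ : K) • Zᴴ))) * Jm K hrn with hX
  have hr : X.rank ≤ q := by
    refine (Matrix.rank_mul_le_left _ _).trans ((Matrix.rank_mul_le_right _ _).trans
      ((Matrix.rank_mul_le_right _ _).trans ((Matrix.rank_mul_le_left _ _).trans ?_)))
    simpa using Matrix.rank_le_card_width Z
  unfold bestErr
  refine (iInf₂_le X hr).trans (le_of_eq ?_)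
  congr 1
  have e : AA hrd hrn τ W Z - X = (Jm K hrd)ᴴ * (Wᴴ * R Z) * Jm K hrn := by
    rw [hX]
    unfold AA
    rw [← Matrix.sub_mul, ← Matrix.mul_sub, ← Matrix.mul_sub]
    congr 3
    unfold Bm R
    rw [Matrix.mul_add, Matrix.mul_smul, Matrix.mul_assoc Z]
    abel
  have h2 := frob_R hZ
  simp only [Fintype.card_fin] at h2
  rw [← h2, ← frob_sand hrd hrn hW (R Z), e]
  rfl

end inst

section avg
variable {K : Type*} [RCLike K] [MeasurableSpace K] [BorelSpace K]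
  {N d l k q : ℕ} {S : Type*} [MeasurableSpace S]

/-- one-point error -/
noncomputable def er {m : ℕ} (hrd : m ≤ d) (hrn : m ≤ N) (τ : ℝ)
    (alg : Matrix (Fin N) (Fin l) K × Matrix (Fin d) (Fin l) K × Matrix (Fin N) (Fin l) K →
      Matrix (Fin d) (Fin N) K) (Om : Matrix (Fin N) (Fin l) K) (W : Matrix (Fin m) (Fin m) K)
    (Z : Matrix (Fin m) (Fin q) K) : ℝ≥0∞ :=
  ENNReal.ofReal (frobSq (AA hrd hrn τ W Z - alg (Om, AA hrd hrn τ W Z * Om,
    (AA hrd hrn τ W Z)ᴴ * AA hrd hrn τ W Z * Om)))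

lemma meas_AA {m : ℕ} (hrd : m ≤ d) (hrn : m ≤ N) (τ : ℝ) {Q : Type*} [MeasurableSpace Q]
    {W : Q → Matrix (Fin m) (Fin m) K} {Z : Q → Matrix (Fin m) (Fin q) K}
    (hW : Measurable W) (hZ : Measurable Z) :
    Measurable fun t => AA hrd hrn τ (W t) (Z t) := by
  have hB : Measurable fun t => Bm τ (Z t) := by
    refine meas_mat fun i j => ?_
    have h1 := meas_entry (meas_mul hZ (meas_conj hZ)) i j
    have : ∀ t, Bm τ (Z t) i j = (1 : Matrix (Fin m) (Fin m) K) i j +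
        (τ : K) * ((Z t * (Z t)ᴴ) i j) := fun t => rfl
    simp_rw [this]
    exact measurable_const.add (measurable_const.mul h1)
  exact meas_mul (meas_mul measurable_const (meas_mul (meas_conj hW) hB)) measurable_const

lemma meas_er {m : ℕ} (hrd : m ≤ d) (hrn : m ≤ N) (τ : ℝ)
    {alg : Matrix (Fin N) (Fin l) K × Matrix (Fin d) (Fin l) K × Matrix (Fin N) (Fin l) K →
      Matrix (Fin d) (Fin N) K} (halg : Measurable alg) {Q : Type*} [MeasurableSpace Q]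
    {Om : Q → Matrix (Fin N) (Fin l) K}
    {W : Q → Matrix (Fin m) (Fin m) K} {Z : Q → Matrix (Fin m) (Fin q) K}
    (hOm : Measurable Om) (hW : Measurable W) (hZ : Measurable Z) :
    Measurable fun t => er hrd hrn τ alg (Om t) (W t) (Z t) := by
  have hA := meas_AA hrd hrn τ hW hZ
  unfold er
  refine meas_frobSq (meas_sub hA (halg.comp ?_))
  exact hOm.prodMk ((meas_mul hA hOm).prodMk (meas_mul (meas_mul (meas_conj hA) hA) hOm))

lemma avg (hrd : l + k ≤ d) (hrn : l + k ≤ N)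
    {alg : Matrix (Fin N) (Fin l) K × Matrix (Fin d) (Fin l) K × Matrix (Fin N) (Fin l) K →
      Matrix (Fin d) (Fin N) K} (halg : Measurable alg)
    [MeasurableSpace (Matrix.unitaryGroup (Fin (l + k)) K)]
    {μ : Measure (Matrix.unitaryGroup (Fin (l + k)) K)} [IsProbabilityMeasure μ]
    (hinv : ∀ f : Matrix.unitaryGroup (Fin (l + k)) K → ℝ≥0∞,
      ∀ U : Matrix.unitaryGroup (Fin (l + k)) K, ∫⁻ V, f (U * V) ∂μ = ∫⁻ V, f V ∂μ)
    (hme : Measurable fun V : Matrix.unitaryGroup (Fin (l + k)) K =>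
      (V : Matrix (Fin (l + k)) (Fin (l + k)) K))
    {τ : ℝ} (hτ : 0 ≤ τ) (Om : Matrix (Fin N) (Fin l) K)
    {Z : Matrix (Fin (l + k)) (Fin q) K} {F : Matrix (Fin (l + k)) (Fin k) K}
    (hF : Fᴴ * F = 1) (hFG : Fᴴ * (Jm K hrn * Om) = 0) {c : ℝ}
    (hc : ∀ Y' : Matrix (Fin (l + k)) (Fin k) K, Fᴴ * Y' = 1 → c ≤ frob2 (Bm τ Z * Y')) :
    ENNReal.ofReal c ≤ ∫⁻ W, er hrd hrn τ alg Om (W : Matrix _ _ K) Z ∂μ := by
  obtain ⟨Q, X, Y', hQ1, hQ2, hQ3, hQ4, hQ5⟩ := exists_proj (Bm_herm hτ Z) (Bm_unit hτ Z) hF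
  set B := Bm τ Z with hB
  set Rm : Matrix (Fin (l + k)) (Fin (l + k)) K := 1 - (Q + Q) with hRm
  have hRh : Rmᴴ = Rm := by
    rw [hRm, conjTranspose_sub, conjTranspose_add, conjTranspose_one, hQ1]
  have hRR : Rm * Rm = 1 := by
    have : Rm * Rm = 1 - (Q + Q) - (Q + Q) + (Q * Q + Q * Q + Q * Q + Q * Q) := by
      rw [hRm]; noncomm_ring
    rw [this, hQ2]; abel
  let U : Matrix.unitaryGroup (Fin (l + k)) K := ⟨Rm, by
    rw [Matrix.mem_unitaryGroup_iff, Matrix.star_eq_conjTranspose, hRh, hRR]⟩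
  set f : Matrix.unitaryGroup (Fin (l + k)) K → ℝ≥0∞ :=
    fun W => er hrd hrn τ alg Om (W : Matrix _ _ K) Z with hf
  have mf : Measurable f := meas_er hrd hrn τ halg measurable_const hme measurable_const
  have hpt : ∀ V, ENNReal.ofReal (2 * c) ≤ f V + f (U * V) := by
    intro V
    have hV : (V : Matrix (Fin (l + k)) (Fin (l + k)) K) *
        (V : Matrix (Fin (l + k)) (Fin (l + k)) K)ᴴ = 1 := by
      rw [← Matrix.star_eq_conjTranspose]
      exact Matrix.mem_unitaryGroup_iff.1 V.2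
    set v : Matrix (Fin (l + k)) (Fin (l + k)) K := (V : Matrix (Fin (l + k)) (Fin (l + k)) K)
      with hv
    have hV' : (Rm * v) * (Rm * v)ᴴ = 1 := by
      rw [conjTranspose_mul, hRh]
      calc Rm * v * (vᴴ * Rm) = Rm * (v * vᴴ) * Rm := by simp only [Matrix.mul_assoc]
        _ = 1 := by rw [hV, Matrix.mul_one, hRR]
    set a := AA hrd hrn τ v Z with ha
    set b := AA hrd hrn τ (Rm * v) Z with hb
    have hab : a - b = (Jm K hrd)ᴴ * (vᴴ * ((Q + Q) * B)) * Jm K hrn := by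
      rw [ha, hb]
      unfold AA
      rw [← Matrix.sub_mul, ← Matrix.mul_sub, conjTranspose_mul, hRh, Matrix.mul_assoc vᴴ Rm,
        ← Matrix.mul_sub]
      congr 3
      rw [hRm, Matrix.sub_mul, Matrix.one_mul]
      abel
    have hQG : (Q * B) * (Jm K hrn * Om) = 0 := by
      rw [hQ3, Matrix.mul_assoc, hFG, Matrix.mul_zero]
    have hdat : b * Om = a * Om := by
      have : (a - b) * Om = 0 := by
        rw [hab]
        calc (Jm K hrd)ᴴ * (vᴴ * ((Q + Q) * B)) * Jm K hrn * Om =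
            (Jm K hrd)ᴴ * (vᴴ * ((Q * B) * (Jm K hrn * Om) + (Q * B) * (Jm K hrn * Om))) := by
              simp only [Matrix.mul_assoc, Matrix.add_mul, Matrix.mul_add]
          _ = 0 := by rw [hQG]; simp
      rw [Matrix.sub_mul, sub_eq_zero] at this
      exact this.symm
    have hgr : bᴴ * b = aᴴ * a := by
      rw [ha, hb, AA_gram hrd hrn hτ hV, AA_gram hrd hrn hτ hV']
    show _ ≤ er hrd hrn τ alg Om v Z + er hrd hrn τ alg Om (Rm * v) Z
    unfold er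
    rw [← ha, ← hb, hdat, hgr]
    set x := alg (Om, a * Om, aᴴ * a * Om) with hx
    have hfs : ∀ Y : Matrix (Fin d) (Fin N) K, frobSq Y = frob2 Y := fun _ => rfl
    rw [← ENNReal.ofReal_add (by rw [hfs]; exact frob2_nonneg _)
      (by rw [hfs]; exact frob2_nonneg _), hfs, hfs]
    refine ENNReal.ofReal_le_ofReal ?_
    have h1 := hc Y' hQ5
    rw [← hQ4] at h1
    have h2 : frob2 (a - b) = 4 * frob2 (Q * B) := by
      rw [hab, frob_sand hrd hrn hV]
      have : (Q + Q) * B = ((2 : ℝ) : K) • (Q * B) := by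
        rw [Matrix.add_mul]
        have e2 : (((2 : ℝ) : K)) = 2 := RCLike.ofReal_ofNat 2
        rw [e2, two_smul]
      rw [this, frob_smul]; norm_num
    have h3 : a - b = (a - x) + (-(b - x)) := by abel
    have h4 := frob_add (a - x) (-(b - x))
    have h5 := frob_add (a - x) (b - x)
    have h6 := frob2_nonneg ((a - x) + (b - x))
    have h7 : ip (a - x) (-(b - x)) = - ip (a - x) (b - x) := by
      have : -(b - x) = ((-1 : ℝ) : K) • (b - x) := by simp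
      rw [this, ip_smul]; ring
    rw [h3, h4, h7, frob_neg] at h2
    rw [h5] at h6
    linarith
  have h1 : ENNReal.ofReal (2 * c) ≤ ∫⁻ V, f V ∂μ + ∫⁻ V, f V ∂μ := by
    calc ENNReal.ofReal (2 * c) = ∫⁻ V, ENNReal.ofReal (2 * c) ∂μ := by simp
      _ ≤ ∫⁻ V, (f V + f (U * V)) ∂μ := lintegral_mono hpt
      _ = ∫⁻ V, f V ∂μ + ∫⁻ V, f (U * V) ∂μ := lintegral_add_left mf _
      _ = _ := by rw [hinv f U]
  rw [ENNReal.ofReal_mul (by norm_num), ← two_mul] at h1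
  have h2 : ENNReal.ofReal 2 = 2 := by norm_num
  rw [h2] at h1
  exact (ENNReal.mul_le_mul_iff_right (by norm_num) (by norm_num)).1 h1

lemma point (hrd : l + k ≤ d) (hrn : l + k ≤ N)
    (alg : Matrix (Fin N) (Fin l) K × Matrix (Fin d) (Fin l) K × Matrix (Fin N) (Fin l) K →
      Matrix (Fin d) (Fin N) K) {τ : ℝ} (hτ : 0 ≤ τ) (P : Measure S)
    (Om : S → Matrix (Fin N) (Fin l) K)
    {W : Matrix (Fin (l + k)) (Fin (l + k)) K} (hW : W * Wᴴ = 1)
    {Z : Matrix (Fin (l + k)) (Fin q) K} (hZ : IsUnit (Zᴴ * Z).det)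
    (hw : worst P Om alg q (l + k) ≠ ⊤) :
    ∫⁻ s, er hrd hrn τ alg (Om s) W Z ∂P ≤
      worst P Om alg q (l + k) * ENNReal.ofReal (((l + k : ℕ) : ℝ) - q) := by
  have h1 : ratio P Om alg q (AA hrd hrn τ W Z) ≤ worst P Om alg q (l + k) := by
    unfold worst
    exact le_iSup₂_of_le (AA hrd hrn τ W Z) (AA_rank hrd hrn hτ hW Z) le_rfl
  have h2 := AA_best hrd hrn (τ := τ) hW hZ
  unfold ratio at h1
  rw [ENNReal.div_le_iff_le_mul (Or.inr hw) (Or.inl (h2.trans_lt ENNReal.ofReal_lt_top).ne)] at h1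
  exact h1.trans (mul_le_mul_right h2 _)

end avg

section fin
variable {K : Type*} [RCLike K] [MeasurableSpace K] [BorelSpace K]
  {N d l k q : ℕ} {S : Type*} [MeasurableSpace S] {J : Type*} [Fintype J]

lemma step1 (hrd : l + k ≤ d) (hrn : l + k ≤ N)
    {alg : Matrix (Fin N) (Fin l) K × Matrix (Fin d) (Fin l) K × Matrix (Fin N) (Fin l) K →
      Matrix (Fin d) (Fin N) K} (halg : Measurable alg)
    [MeasurableSpace (Matrix.unitaryGroup (Fin (l + k)) K)]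
    {μ : Measure (Matrix.unitaryGroup (Fin (l + k)) K)} [IsProbabilityMeasure μ]
    (hinv : ∀ f : Matrix.unitaryGroup (Fin (l + k)) K → ℝ≥0∞,
      ∀ U : Matrix.unitaryGroup (Fin (l + k)) K, ∫⁻ V, f (U * V) ∂μ = ∫⁻ V, f V ∂μ)
    (hme : Measurable fun V : Matrix.unitaryGroup (Fin (l + k)) K =>
      (V : Matrix (Fin (l + k)) (Fin (l + k)) K)) {ε : ℝ} (hε : 0 < ε)
    (Om : Matrix (Fin N) (Fin l) K) :
    ENNReal.ofReal ((k : ℝ) + finrank ℝ K * k * T K (Fin l) (Fin q) ε) ≤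
      ∫⁻ w, ∫⁻ W, er hrd hrn (1 / (2 * ε)) alg Om (W : Matrix (Fin (l + k)) (Fin (l + k)) K)
        (toM w) ∂μ ∂(G K (Fin (l + k) × Fin q)) := by
  have hτ : 0 ≤ 1 / (2 * ε) := by positivity
  obtain ⟨U1, U2, h11, h22, h12, hcm, hG⟩ := exists_frame (K := K) (Jm K hrn * Om)
  have h1 := gauss_int (K := K) (q := Fin q) h11 h22 h12 (by simp) hε
  simp only [Fintype.card_fin] at h1
  rw [← h1]
  refine lintegral_mono fun w => ?_
  refine avg hrd hrn halg hinv hme hτ Om h22 hG fun Y' hY' => ?_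
  exact gm_bound h11 h22 h12 hcm hε (toM w) hY'

lemma key0 (b : OrthonormalBasis J ℝ K) {δ : ℝ} (hδ0 : 0 ≤ δ)
    (hδ : ∀ z : K, ∑ k, RCLike.re (z ^ 2 * star (b k) ^ 2) = δ * ‖z‖ ^ 2)
    (hDn : 0 < (Fintype.card J : ℝ) *
      (Fintype.card (Fin (l + k)) - Fintype.card (Fin q)) - δ)
    (hrd : l + k ≤ d) (hrn : l + k ≤ N)
    {alg : Matrix (Fin N) (Fin l) K × Matrix (Fin d) (Fin l) K × Matrix (Fin N) (Fin l) K →
      Matrix (Fin d) (Fin N) K} (halg : Measurable alg)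
    {P : Measure S} [IsProbabilityMeasure P] {Om : S → Matrix (Fin N) (Fin l) K}
    (hOm : Measurable Om) (hw : worst P Om alg q (l + k) ≠ ⊤)
    [MeasurableSpace (Matrix.unitaryGroup (Fin (l + k)) K)]
    {μ : Measure (Matrix.unitaryGroup (Fin (l + k)) K)} [IsProbabilityMeasure μ]
    (hinv : ∀ f : Matrix.unitaryGroup (Fin (l + k)) K → ℝ≥0∞,
      ∀ U : Matrix.unitaryGroup (Fin (l + k)) K, ∫⁻ V, f (U * V) ∂μ = ∫⁻ V, f V ∂μ)
    (hme : Measurable fun V : Matrix.unitaryGroup (Fin (l + k)) K =>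
      (V : Matrix (Fin (l + k)) (Fin (l + k)) K)) {ε : ℝ} (hε : 0 < ε) :
    ENNReal.ofReal ((k : ℝ) + finrank ℝ K * k * T K (Fin l) (Fin q) ε) ≤
      worst P Om alg q (l + k) * ENNReal.ofReal (((l + k : ℕ) : ℝ) - q) := by
  have hτ : 0 ≤ 1 / (2 * ε) := by positivity
  have hW : ∀ W : Matrix.unitaryGroup (Fin (l + k)) K,
      (W : Matrix (Fin (l + k)) (Fin (l + k)) K) *
        (W : Matrix (Fin (l + k)) (Fin (l + k)) K)ᴴ = 1 := by
    intro W
    rw [← Matrix.star_eq_conjTranspose]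
    exact Matrix.mem_unitaryGroup_iff.1 W.2
  let F : S → ((Fin (l + k) × Fin q → K) × Matrix.unitaryGroup (Fin (l + k)) K) → ℝ≥0∞ :=
    fun s t => er hrd hrn (1 / (2 * ε)) alg (Om s)
      (t.2 : Matrix (Fin (l + k)) (Fin (l + k)) K) (toM t.1)
  have mF : Measurable (Function.uncurry F) :=
    meas_er hrd hrn (1 / (2 * ε)) halg (hOm.comp measurable_fst)
      (hme.comp (measurable_snd.comp measurable_snd))
      (meas_toM (measurable_fst.comp measurable_snd))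
  have hstep : ∀ s, ENNReal.ofReal ((k : ℝ) + finrank ℝ K * k * T K (Fin l) (Fin q) ε) ≤
      ∫⁻ w, ∫⁻ W, F s (w, W) ∂μ ∂(G K (Fin (l + k) × Fin q)) :=
    fun s => step1 hrd hrn halg hinv hme hε (Om s)
  have hpt : ∀ᵐ w ∂(G K (Fin (l + k) × Fin q)), ∀ W, ∫⁻ s, F s (w, W) ∂P ≤
      worst P Om alg q (l + k) * ENNReal.ofReal (((l + k : ℕ) : ℝ) - q) := by
    filter_upwards [full_rank (m := Fin (l + k)) (r := Fin q) b hδ0 hδ hDn] with w hw1
    exact fun W => point hrd hrn alg hτ P Om (hW W) hw1 hw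
  clear_value F
  generalize worst P Om alg q (l + k) * ENNReal.ofReal (((l + k : ℕ) : ℝ) - q) = C at hpt ⊢
  generalize ENNReal.ofReal ((k : ℝ) + finrank ℝ K * k * T K (Fin l) (Fin q) ε) = D at hstep ⊢
  have mF2 : ∀ s, Measurable (F s) := fun s => mF.comp (measurable_const.prodMk measurable_id)
  have mF3 : Measurable (fun t => ∫⁻ s, F s t ∂P) := mF.lintegral_prod_left'
  calc D = ∫⁻ s, D ∂P := by simp
    _ ≤ ∫⁻ s, ∫⁻ w, ∫⁻ W, F s (w, W) ∂μ ∂(G K (Fin (l + k) × Fin q)) ∂P :=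
        lintegral_mono hstep
    _ = ∫⁻ s, ∫⁻ t, F s t ∂((G K (Fin (l + k) × Fin q)).prod μ) ∂P := by
        refine lintegral_congr fun s => ?_
        rw [lintegral_prod _ (mF2 s).aemeasurable]
    _ = ∫⁻ t, ∫⁻ s, F s t ∂P ∂((G K (Fin (l + k) × Fin q)).prod μ) :=
        lintegral_lintegral_swap mF.aemeasurable
    _ = ∫⁻ w, ∫⁻ W, ∫⁻ s, F s (w, W) ∂P ∂μ ∂(G K (Fin (l + k) × Fin q)) :=
        lintegral_prod _ mF3.aemeasurable
    _ ≤ ∫⁻ w, ∫⁻ W, C ∂μ ∂(G K (Fin (l + k) × Fin q)) := by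
        refine lintegral_mono_ae ?_
        filter_upwards [hpt] with w hw1
        exact lintegral_mono hw1
    _ = C := by simp

lemma key (b : OrthonormalBasis J ℝ K) {δ : ℝ} (hδ0 : 0 ≤ δ)
    (hδ : ∀ z : K, ∑ k, RCLike.re (z ^ 2 * star (b k) ^ 2) = δ * ‖z‖ ^ 2)
    (hD : 0 < (Fintype.card J : ℝ) * ((l : ℝ) - q) - δ)
    (hrd : l + k ≤ d) (hrn : l + k ≤ N)
    {alg : Matrix (Fin N) (Fin l) K × Matrix (Fin d) (Fin l) K × Matrix (Fin N) (Fin l) K →
      Matrix (Fin d) (Fin N) K} (halg : Measurable alg)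
    {P : Measure S} [IsProbabilityMeasure P] {Om : S → Matrix (Fin N) (Fin l) K}
    (hOm : Measurable Om) (hw : worst P Om alg q (l + k) ≠ ⊤) {ε : ℝ} (hε : 0 < ε) :
    ENNReal.ofReal ((k : ℝ) + finrank ℝ K * k * T K (Fin l) (Fin q) ε) ≤
      worst P Om alg q (l + k) * ENNReal.ofReal (((l + k : ℕ) : ℝ) - q) := by
  obtain ⟨mU, μ, hμ, hinv, hme0⟩ := exists_haar K (Fin (l + k))
  have hDn : 0 < (Fintype.card J : ℝ) *
      (Fintype.card (Fin (l + k)) - Fintype.card (Fin q)) - δ := by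
    have h1 : (0 : ℝ) ≤ (Fintype.card J : ℝ) * k := by positivity
    simp only [Fintype.card_fin]
    push_cast
    nlinarith
  exact key0 b hδ0 hδ hDn hrd hrn halg hOm hw hinv (meas_mat fun i j => hme0 i j) hε

theorem lower (b : OrthonormalBasis J ℝ K) {δ : ℝ} (hδ0 : 0 ≤ δ)
    (hδ : ∀ z : K, ∑ k, RCLike.re (z ^ 2 * star (b k) ^ 2) = δ * ‖z‖ ^ 2)
    (hD : 0 < (Fintype.card J : ℝ) * ((l : ℝ) - q) - δ) (h0 : (0 : ℝ) < (l : ℝ) - q)
    (hrd : l + k ≤ d) (hrn : l + k ≤ N)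
    {alg : Matrix (Fin N) (Fin l) K × Matrix (Fin d) (Fin l) K × Matrix (Fin N) (Fin l) K →
      Matrix (Fin d) (Fin N) K} (halg : Measurable alg)
    {P : Measure S} [IsProbabilityMeasure P] {Om : S → Matrix (Fin N) (Fin l) K}
    (hOm : Measurable Om) :
    ENNReal.ofReal (k / ((l : ℝ) + k - q) *
      (1 + Fintype.card J * (q / (Fintype.card J * ((l : ℝ) - q) - δ)))) ≤
      worst P Om alg q (l + k) := by
  have hfin : (finrank ℝ K : ℝ) = Fintype.card J := by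
    rw [finrank_eq_card_basis b.toBasis]
  have hJ : (0 : ℝ) < Fintype.card J := by
    rw [← hfin]; exact_mod_cast Module.finrank_pos (R := ℝ) (M := K)
  have hk : (0 : ℝ) ≤ k := by positivity
  have hn : (0 : ℝ) < (l : ℝ) + k - q := by linarith
  set β : ℝ := ((Fintype.card J : ℕ) : ℝ) with hβ
  by_contra hcon
  rw [not_le] at hcon
  have htop : worst P Om alg q (l + k) ≠ ⊤ := (hcon.trans ENNReal.ofReal_lt_top).ne
  set w := (worst P Om alg q (l + k)).toReal with hw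
  have hwe : worst P Om alg q (l + k) = ENNReal.ofReal w := (ENNReal.ofReal_toReal htop).symm
  have hw0 : 0 ≤ w := ENNReal.toReal_nonneg
  have hall : ∀ ε : ℝ, 0 < ε → (k : ℝ) + β * k * T K (Fin l) (Fin q) ε ≤
      w * ((l : ℝ) + k - q) := by
    intro ε hε
    have h1 := key (K := K) b hδ0 hδ hD hrd hrn halg (P := P) hOm htop hε
    rw [hwe, ← ENNReal.ofReal_mul hw0, ENNReal.ofReal_le_ofReal_iff
      (mul_nonneg hw0 (by push_cast; linarith)), hfin] at h1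
    push_cast at h1
    exact h1
  have hlt : w < k / ((l : ℝ) + k - q) * (1 + β * (q / (β * ((l : ℝ) - q) - δ))) := by
    rw [hwe] at hcon
    exact (ENNReal.ofReal_lt_ofReal_iff_of_nonneg hw0).1 hcon
  have hlt2 : w * ((l : ℝ) + k - q) < k * (1 + β * (q / (β * ((l : ℝ) - q) - δ))) := by
    have := mul_lt_mul_of_pos_right hlt hn
    have e : k / ((l : ℝ) + k - q) * (1 + β * (q / (β * ((l : ℝ) - q) - δ))) *
        ((l : ℝ) + k - q) = k * (1 + β * (q / (β * ((l : ℝ) - q) - δ))) := by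
      field_simp
    rwa [e] at this
  rcases eq_or_lt_of_le hk with hk0 | hkpos
  · rw [← hk0, zero_mul] at hlt2
    rw [← hk0] at hn
    have := mul_nonneg hw0 hn.le
    linarith
  · have hc : (w * ((l : ℝ) + k - q) / k - 1) / β < q / (β * ((l : ℝ) - q) - δ) := by
      rw [div_lt_iff₀ hJ, sub_lt_iff_lt_add, div_lt_iff₀ hkpos]
      linarith
    obtain ⟨ε, hε, h1⟩ := T_sup (K := K) (m := Fin l) (r := Fin q) b hδ0 hδ (by simpa using hD)
      (c := (w * ((l : ℝ) + k - q) / k - 1) / β) (by simpa using hc)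
    rw [div_lt_iff₀ hJ, sub_lt_iff_lt_add, div_lt_iff₀ hkpos] at h1
    have h2 := hall ε hε
    linarith

end fin

end Pool.Agent.V11159.RS
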